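import Pool.Agent.Lib.MP_ab8df0_nt.A.Twr

/-! Square classes with even valuation outside 2. -/

namespace Pool.Agent.Lib.MP_ab8df0_nt.A.P15

open Pool.Agent.Lib.MP_ab8df0_nt.A

/-- Lower coefficients of the polynomial. -/
def fl : List ℤ := [1, 4, -4, -1]

/-- The modulus. -/
def m : ℕ := nat_lit 0x600c2c4615b662367845d

/-- The roots modulo the modulus. -/
def ρ : List ℕ := [nat_lit 0x38346576cee1fb117ce1c, nat_lit 0x2766a1777de1817b57ff1, nat_lit 0x50bb017ad2dc8b85a740d, nat_lit 0xfc250230bccbc5a746a1]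

theorem a0 : CovA fl 2 5 m 3 ρ 0 (0 + 6) := covA _ _ _ _ _ _ _ _
  [(0, []),
  (0, [⟨[1, 2], 2, 2, [1, 2], []⟩]),
  (0, [⟨[4], 4, 1, [1], [1, 1]⟩])] (by decide +kernel)

theorem ra {F : Type*} [Field F] [NumberField F] {α : NumberField.RingOfIntegers F} (h : Gen α fl) :
    Range F 2 5 0 6 :=
  have hs : splitOK fl m 3 ρ = true := by decide +kernel
  a0.range h hs

open NumberField IsDedekindDomain

variable {F : Type*} [Field F] [NumberField F] {α : 𝓞 F}

theorem c2 (h : Gen α fl) : Cnt F 2 1 :=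
  h.cnt (m := m) (r := 3) (ρ := ρ) Nat.prime_two (l := [(⟨[1, 0, 0, 1], 1, 4, [0, 1, 1], [2]⟩, 1)]) (by decide +kernel)

/-- The generators. -/
def g : Fin 5 → List ℤ := ![[-1],
  [0, 1],
  [2],
  [-1, 1],
  [-2, 0, 1]]

theorem SU (h : Gen α fl) {ξ : F} (h0 : ξ ≠ 0)
    (hξ : ∀ v : HeightOneSpectrum (𝓞 F), ((2 : ℕ) : 𝓞 F) ∉ v.asIdeal →
      ∃ k : ℤ, v.valuation F ξ = WithZero.exp (2 * k)) :
    ∃ (e : Fin 5 → Bool) (u : F), ξ = (∏ i, if e i then ev (α : F) (g i) else 1) * u ^ 2 :=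
  h.SU (M := 5) (m := m) (r := 3) (ρ := ρ) (D := 1125) (dF := 1125)
    (bs := [([1], 1, [1, -4, 6, -4]), ([0, 1], 1, [1, 4, -4, -1]), ([0, 0, 1], 1, [1, -24, 26, -9]), ([0, 0, 0, 1], 1, [1, 109, -49, -1])])
    (K := 10000000000000000000000000000000000000000) (E := 10000000000000000000000000000000000000000) (zs := []) (T := 31)
    (c := ![(239, 25), (89, 37), (1021, 817), (449, 174), (241, 237)]) (by decide +kernel)
    (c2 h) (ra h) h0 hξ

instance : Fact (Irreducible (mq fl)) :=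
  ⟨irr_of_deg (D := 4) (D' := 4) Nat.prime_two Nat.prime_two (l := [⟨[1, 0, 0, 1], 1, 4, [0, 1, 1], []⟩])
    (l' := [⟨[1, 0, 0, 1], 1, 4, [0, 1, 1], []⟩]) (by decide +kernel)⟩

theorem re0 (h : Gen α fl) : ∃ φ : F →+* ℝ, ((-1956295201467611275857133495740 : ℤ) : ℝ) / ((10 ^ 30 : ℕ) : ℝ) < φ α ∧
    φ α < ((-1956295201467611275857133495739 : ℤ) : ℝ) / ((10 ^ 30 : ℕ) : ℝ) := h.real (by decide +kernel)

theorem re1 (h : Gen α fl) : ∃ φ : F →+* ℝ, ((-209056926535306942799668309605 : ℤ) : ℝ) / ((10 ^ 30 : ℕ) : ℝ) < φ α ∧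
    φ α < ((-209056926535306942799668309604 : ℤ) : ℝ) / ((10 ^ 30 : ℕ) : ℝ) := h.real (by decide +kernel)

theorem re2 (h : Gen α fl) : ∃ φ : F →+* ℝ, ((1338261212717716427652546661373 : ℤ) : ℝ) / ((10 ^ 30 : ℕ) : ℝ) < φ α ∧
    φ α < ((1338261212717716427652546661374 : ℤ) : ℝ) / ((10 ^ 30 : ℕ) : ℝ) := h.real (by decide +kernel)

theorem re3 (h : Gen α fl) : ∃ φ : F →+* ℝ, ((1827090915285201791004255143970 : ℤ) : ℝ) / ((10 ^ 30 : ℕ) : ℝ) < φ α ∧
    φ α < ((1827090915285201791004255143971 : ℤ) : ℝ) / ((10 ^ 30 : ℕ) : ℝ) := h.real (by decide +kernel)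

/-- The common denominator. -/
def den : ℤ := 1

/-- Numerator of a tower element. -/
def ph : List ℤ := [1, -3, 0, 1]

/-- Numerator of a tower element. -/
def om : List ℤ := [4, 3, -2, -1]

theorem tw0 {K : Type*} [Field K] [CharZero K] {a : K} (h : a ^ fl.length + ev a fl = 0) :
    (ev a ph / den) ^ 2 = ((ev a ph / den) + 1) := by
  have := ex_zero_div h (D := den) (ls := [ph, om])
    (e := (.add (.pow (.v 0) 2) (.neg (.add (.v 0) (.c 1))))) (by decide +kernel)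
  simp only [List.map, Ex.evR, Ex.evR_pow, nth0] at this
  push_cast at this
  linear_combination this

theorem tw1 {K : Type*} [Field K] [CharZero K] {a : K} (h : a ^ fl.length + ev a fl = 0) :
    (ev a om / den) ^ 2 = ((3 * ((2 * (ev a ph / den)) - 1)) * (ev a ph / den)) := by
  have := ex_zero_div h (D := den) (ls := [ph, om])
    (e := (.add (.pow (.v 1) 2) (.neg (.mul (.mul (.c 3) (.add (.mul (.c 2) (.v 0)) (.neg (.c 1)))) (.v 0))))) (by decide +kernel)
  simp only [List.map, Ex.evR, Ex.evR_pow, nth0, nth1] at this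
  push_cast at this
  linear_combination this


end Pool.Agent.Lib.MP_ab8df0_nt.A.P15
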